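import Mathlib

/-!
The Navier-Stokes equations with an additional term `A(curl u, u)`, where the trilinear form `⟨A(w,v),z⟩` is
alternating: definitions.
-/

open MeasureTheory Set
open scoped ContDiff

namespace Pool.Agent.N980.WU

/-- The space `ℝ³`. -/
abbrev V := Fin 3 → ℝ

/-- The period cell. -/
def cube : Set V := Icc 0 1

/-- Smooth vector fields that are `1`-periodic in each coordinate. -/
def SPV (v : V → V) : Prop := ContDiff ℝ ∞ v ∧ ∀ x (j : Fin 3), v (x + Pi.single j 1) = v x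

/-- The partial derivative `∂f/∂x_j`. -/
noncomputable def pd (j : Fin 3) (f : V → ℝ) (x : V) : ℝ := fderiv ℝ f x (Pi.single j 1)

/-- The divergence. -/
noncomputable def dv (v : V → V) (x : V) : ℝ := ∑ j, pd j (fun y => v y j) x

/-- The Laplacian of a vector field. -/
noncomputable def lap (v : V → V) (x : V) : V := fun i => ∑ j, pd j (pd j fun y => v y i) x

/-- The curl. -/
noncomputable def curl (v : V → V) (x : V) : V :=
  ![pd 1 (fun y => v y 2) x - pd 2 (fun y => v y 1) x,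
    pd 2 (fun y => v y 0) x - pd 0 (fun y => v y 2) x,
    pd 0 (fun y => v y 1) x - pd 1 (fun y => v y 0) x]

/-- The inner product `⟨v,w⟩ = ∫ v · w` over the period cell. -/
noncomputable def ip (v w : V → V) : ℝ := ∫ x in cube, ∑ i, v x i * w x i

/-- The kinetic energy (times two). -/
noncomputable def energy (v : V → V) : ℝ := ∫ x in cube, ∑ i, v x i ^ 2

/-- The dissipation. -/
noncomputable def dissip (v : V → V) : ℝ := ∫ x in cube, ∑ i, ∑ j, pd j (fun y => v y i) x ^ 2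

/-- The Fourier coefficients `∫ v_i(x) exp(-2πi k·x) dx`. -/
noncomputable def fco (v : V → V) (k : Fin 3 → ℤ) (i : Fin 3) : ℂ :=
  ∫ x in cube, (v x i : ℂ) * Complex.exp (-(2 * Real.pi * Complex.I * ∑ j, (k j : ℂ) * (x j : ℂ)))

/-- The homogeneous Sobolev norm `(∑ₖ (2π|k|)^(2s) |v̂(k)|²)^(1/2)`. -/
noncomputable def hs (s : ℝ) (v : V → V) : ℝ :=
  Real.sqrt (∑' k : Fin 3 → ℤ,
    (2 * Real.pi * Real.sqrt (∑ j, (k j : ℝ) ^ 2)) ^ (2 * s) * ∑ i, ‖fco v k i‖ ^ 2)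

/-- The norm `∑ₖ (1 + |k₁| + |k₂| + |k₃|)³ |v̂(k)|`. -/
noncomputable def wn (v : V → V) : ℝ := ∑' k : Fin 3 → ℤ, (1 + ∑ i, |(k i : ℝ)|) ^ 3 * ‖fco v k‖

/-- The Lebesgue norm `(∫ |v|^p)^(1/p)` over the period cell. -/
noncomputable def lpn (p : ℝ) (v : V → V) : ℝ := (∫ x in cube, ‖v x‖ ^ p) ^ (1 / p)

/-- The field has its frequencies in the ball of radius `M`. -/
def BL (M : ℝ) (v : V → V) : Prop := ∀ k : Fin 3 → ℤ, M < Real.sqrt (∑ j, (k j : ℝ) ^ 2) → fco v k = 0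

/-- `F` is bilinear with smooth, periodic, divergence-free values of mean zero, the trilinear form `⟨F(w,v),z⟩` is
alternating, it vanishes as soon as one of the fields is independent of one of the coordinates, and it is of order `ε`
in the Lebesgue spaces, of order `1 + ε/4` in the Sobolev spaces. -/
structure Alt (ε : ℝ) (F : (V → V) → (V → V) → V → V) : Prop where
  spv : ∀ w v, SPV w → SPV v → SPV (F w v)
  divfree : ∀ w v, SPV w → SPV v → ∀ x, dv (F w v) x = 0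
  mean : ∀ w v, SPV w → SPV v → ∀ i, ∫ x in cube, F w v x i = 0
  add_left : ∀ w w' v, SPV w → SPV w' → SPV v → F (w + w') v = F w v + F w' v
  smul_left : ∀ (r : ℝ) w v, SPV w → SPV v → F (r • w) v = r • F w v
  anti : ∀ w v, SPV w → SPV v → F w v = -F v w
  skew : ∀ w v z, SPV w → SPV v → SPV z → ip (F w v) z = -ip v (F w z)
  flat : ∀ (j : Fin 3) (w v : V → V), SPV w → SPV v → (∀ x (s : ℝ), w (x + Pi.single j s) = w x) → F w v = 0
  order_lp : ∃ C, ∀ p₁ p₂ p₃ : ℝ, 1 < p₁ → 1 < p₂ → 1 < p₃ → 1 / p₁ + 1 / p₂ + 1 / p₃ = 1 →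
    ∀ M : ℝ, 1 ≤ M → ∀ w v z, SPV w → SPV v → SPV z → (BL M w ∨ BL M v ∨ BL M z) →
      |ip (F w v) z| ≤ C * M ^ ε * (lpn p₁ w * lpn p₂ v * lpn p₃ z)
  order_hs : ∃ C, ∀ s₁ s₂ s₃ : ℝ, 0 ≤ s₁ → 0 ≤ s₂ → 0 ≤ s₃ → 1 + ε / 4 ≤ s₁ + s₂ + s₃ →
    ∀ w v z, SPV w → SPV v → SPV z → |ip (F w v) z| ≤ C * (hs s₁ w * hs s₂ v * hs s₃ z)

/-- `(u,p)` is a smooth periodic solution on `[0,T)` of
`∂ₜu + (u·∇)u = ν Δu - ∇p + F(curl u, u)`, `div u = 0`. -/
structure Sol (ν : ℝ) (F : (V → V) → (V → V) → V → V) (T : ℝ) (u : ℝ → V → V) (p : ℝ → V → ℝ) : Prop where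
  smooth_u : ContDiffOn ℝ ∞ (fun z : ℝ × V => u z.1 z.2) (Ico 0 T ×ˢ univ)
  smooth_p : ContDiffOn ℝ ∞ (fun z : ℝ × V => p z.1 z.2) (Ico 0 T ×ˢ univ)
  per_u : ∀ t ∈ Ico 0 T, ∀ x (j : Fin 3), u t (x + Pi.single j 1) = u t x
  per_p : ∀ t ∈ Ico 0 T, ∀ x (j : Fin 3), p t (x + Pi.single j 1) = p t x
  divfree : ∀ t ∈ Ico 0 T, ∀ x, dv (u t) x = 0
  momentum : ∀ t ∈ Ioo 0 T, ∀ x i,
    deriv (fun s => u s x i) t + ∑ j, u t x j * pd j (fun y => u t y i) x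
      = ν * lap (u t) x i - pd i (p t) x + F (curl (u t)) (u t) x i

/-! ### the operator -/

/-- The Fejér weights. -/
noncomputable def fw (L : ℕ) (j : ℤ) : ℝ := max 0 (1 - |(j : ℝ)| / ((L : ℝ) + 1))

/-- The Fejér kernel. -/
noncomputable def fej (L : ℕ) (y : ℝ) : ℝ := ∑ j ∈ Finset.Icc (-(L : ℤ)) L, fw L j * Real.cos (2 * Real.pi * j * y)

/-- The degree of the kernel of the scale `n`. -/
noncomputable def dg (ε : ℝ) (R n : ℕ) : ℕ := ⌊((R : ℝ) ^ (1 - 3 * ε / 4)) ^ n / 2⌋₊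

/-- The potential `(0, φ, 0)`, `φ(x) = cos(2π Rⁿ x₁) F(x₁) cos(2π (L+1) x₂) F(x₂) cos(2π x₃)`, where `F` is the
Fejér kernel of degree `L = ⌊R^((1-3ε/4)n)/2⌋`. -/
noncomputable def pot (ε : ℝ) (R n : ℕ) (x : V) : V :=
  ![0, Real.cos (2 * Real.pi * ((R : ℝ) ^ n * x 0)) * fej (dg ε R n) (x 0)
    * (Real.cos (2 * Real.pi * (((dg ε R n : ℝ) + 1) * x 1)) * fej (dg ε R n) (x 1)) * Real.cos (2 * Real.pi * x 2), 0]

/-- The packet `pₙ`: the curl of the potential, normalized in `L²`. -/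
noncomputable def pk (ε : ℝ) (R n : ℕ) : V → V :=
  (1 / Real.sqrt (energy (curl (pot ε R n)))) • curl (pot ε R n)

/-- The field `qₙ = curl pₙ / (2π Rⁿ)`. -/
noncomputable def qk (ε : ℝ) (R n : ℕ) : V → V := (1 / (2 * Real.pi * (R : ℝ) ^ n)) • curl (pk ε R n)

/-- The field representing the linear form `z ↦ det` of the matrix of the inner products of `w, v, z` with
`a, b, c`. -/
noncomputable def wdg (a b c w v : V → V) (x : V) : V :=
  (ip w a * ip v b - ip w b * ip v a) • c x + (ip w b * ip v c - ip w c * ip v b) • a x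
    + (ip w c * ip v a - ip w a * ip v c) • b x

/-- The operator `A`. -/
noncomputable def A (ε G : ℝ) (R : ℕ) (w v : V → V) (x : V) : V :=
  ∑' n : ℕ, ((G * ((R : ℝ) ^ n) ^ (2 + ε / 4) / (2 * Real.pi * (R : ℝ) ^ (n + 1))) •
      wdg (pk ε R n) (pk ε R (n + 1)) (qk ε R (n + 1)) w v x
    + (Real.exp (-((R : ℝ) ^ (2 + ε / 4) / 1250)) * (G * ((R : ℝ) ^ n) ^ (2 + ε / 4)) / (2 * Real.pi * (R : ℝ) ^ n)) •
      wdg (pk ε R n) (pk ε R (n + 1)) (qk ε R n) w v x)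

end Pool.Agent.N980.WU
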