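import Pool.Agent.N980.WU.Dfn
import Pool.Agent.N980.WT.Res3
import Pool.Agent.N980.WT.Fin3
import Pool.Agent.N980.WQ.Small

/-!
The theorem.
-/

open MeasureTheory Set Filter Topology
open scoped ContDiff

set_option linter.unusedVariables false

namespace Pool.Agent.N980.WU

variable {R : ℕ} {ε G ν T : ℝ} {u : ℝ → V → V} {p : ℝ → V → ℝ}

/-! ### the packets -/

theorem W0_zero (y : ℝ) : WT.W0 (0 + 1) 0 y = Real.cos (2 * Real.pi * y) := by
  unfold WT.W0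
  rw [WP.fej_eq]
  simp

theorem pot_eq (ε : ℝ) (R n : ℕ) (x : V) : pot ε R n x
    = ![0, WT.T3 (WT.W0 (R ^ n) (WP.Lw R (3 * ε / 4) n)) (WT.W0 (WP.Lw R (3 * ε / 4) n + 1) (WP.Lw R (3 * ε / 4) n))
      (WT.W0 (0 + 1) 0) x, 0] := by
  unfold pot WT.T3
  rw [W0_zero]
  unfold WT.W0
  push_cast
  rfl

theorem curl_smul {v : V → V} (hv : NU.SPV v) (r : ℝ) : NU.curl (r • v) = r • NU.curl v := by
  have e : ∀ (i j : Fin 3) (x : V), NU.pd j (fun y => (r • v) y i) x = r * NU.pd j (fun y => v y i) x := by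
    intro i j x
    unfold NU.pd
    have hd : DifferentiableAt ℝ (fun y => v y i) x :=
      ((contDiff_pi.1 hv.1) i).differentiable (by norm_num) x
    have h1 : (fun y => (r • v) y i) = fun y => r * v y i := rfl
    rw [h1, fderiv_const_mul hd]
    rfl
  funext x i
  fin_cases i
  · show NU.pd 1 (fun y => (r • v) y 2) x - NU.pd 2 (fun y => (r • v) y 1) x
      = r * (NU.pd 1 (fun y => v y 2) x - NU.pd 2 (fun y => v y 1) x)
    rw [e, e]; ring
  · show NU.pd 2 (fun y => (r • v) y 0) x - NU.pd 0 (fun y => (r • v) y 2) x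
      = r * (NU.pd 2 (fun y => v y 0) x - NU.pd 0 (fun y => v y 2) x)
    rw [e, e]; ring
  · show NU.pd 0 (fun y => (r • v) y 1) x - NU.pd 1 (fun y => (r • v) y 0) x
      = r * (NU.pd 0 (fun y => v y 1) x - NU.pd 1 (fun y => v y 0) x)
    rw [e, e]; ring

/-- The field of the family is the packet. -/
theorem pk_eq (h : WP.PC R (2 + ε / 4) (3 * ε / 4)) (n : ℕ) : pk ε R n = (WT.XX h).F n := by
  set W := WT.WL_of h with hW
  set c : ℝ := 8 * WT.am R (WP.Lw R (3 * ε / 4)) (fun _ => 0) n with hc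
  have hc0 : 0 < c := by have := W.am_pos n; positivity
  have hR : (0 : ℝ) < (R : ℝ) ^ n := CB.R_pos W.w.hR n
  have hpi := Real.pi_pos
  have h1 : (WT.Φ W).F n = c • pot ε R n := by
    funext x
    rw [WT.Φ_F, Pi.smul_apply, pot_eq]
    funext i
    fin_cases i
    · simp
    · rfl
    · simp
  have h2 : pot ε R n = (1 / c) • (WT.Φ W).F n := by
    rw [h1, smul_smul, one_div, inv_mul_cancel₀ hc0.ne', one_smul]
  have hs : NU.SPV (pot ε R n) := by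
    rw [h2]
    exact ((WT.Φ W).spv n).smul _
  have h3 : (WT.XX h).F n = (1 / (2 * Real.pi * (R : ℝ) ^ n)) • NU.curl ((WT.Φ W).F n) := WQ.crl_F (WT.Φ W) W.w n
  rw [h1, curl_smul hs, smul_smul] at h3
  set d : ℝ := 1 / (2 * Real.pi * (R : ℝ) ^ n) * c with hd
  have hd0 : 0 < d := by positivity
  have h4 : NU.energy ((WT.XX h).F n) = 1 := WT.energy_F (WT.qm h one_pos (WT.PkF_of h)) n
  rw [h3, WP.energy_smul] at h4
  have h5 : NU.energy (NU.curl (pot ε R n)) = (1 / d) ^ 2 := by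
    rw [div_pow, one_pow, eq_div_iff (by positivity)]
    linarith
  have h6 : pk ε R n = (1 / Real.sqrt (NU.energy (NU.curl (pot ε R n)))) • NU.curl (pot ε R n) := rfl
  rw [h6, h5, h3, Real.sqrt_sq (by positivity), one_div_one_div]

theorem qk_eq (h : WP.PC R (2 + ε / 4) (3 * ε / 4)) (hG : 0 < G) (n : ℕ) :
    qk ε R n = (WT.qX (WT.qm h hG (WT.PkF_of h))).F n := by
  have h1 : (WT.qX (WT.qm h hG (WT.PkF_of h))).F n = (1 / (2 * Real.pi * (R : ℝ) ^ n)) • NU.curl ((WT.XX h).F n) :=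
    WQ.crl_F (WT.XX h) h.wh.wd n
  rw [h1, ← pk_eq h n]
  rfl

theorem A_eq (h : WP.PC R (2 + ε / 4) (3 * ε / 4)) (hG : 0 < G) {w v : V → V} (hw : NU.SPV w) (hv : NU.SPV v) :
    A ε G R w v = WP.KQ (WT.aT (WT.qm h hG (WT.PkF_of h))) w v := by
  funext x
  set P := WT.qm h hG (WT.PkF_of h) with hP
  rw [WT.AX_eq P hw hv]
  unfold A
  refine tsum_congr fun n => ?_
  have f0 : ∀ n, P.X.F n = pk ε R n := fun n => (pk_eq h n).symm
  have f1 : ∀ n, (WT.qX P).F n = qk ε R n := fun n => (qk_eq h hG n).symm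
  have hg : P.g n = G * ((R : ℝ) ^ n) ^ (2 + ε / 4) := WT.gn_eq h hG (WT.PkF_of h) n
  have hδ : P.δ = Real.exp (-((R : ℝ) ^ (2 + ε / 4) / 1250)) := rfl
  have hR : P.R = R := rfl
  rw [f0, f0, f1, f1, hg, hδ, hR]
  rfl

theorem A_smul (s G : ℝ) (w v : V → V) : A ε (s * G) R w v = s • A ε G R w v := by
  funext x
  rw [Pi.smul_apply]
  unfold A
  rw [← tsum_const_smul'']
  refine tsum_congr fun n => ?_
  module

/-- The properties of `A` for positive `G`. -/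
theorem alt_pos (h : WP.PC R (2 + ε / 4) (3 * ε / 4)) (hG : 0 < G) : Alt ε (A ε G R) := by
  set P := WT.qm h hG (WT.PkF_of h) with hP
  have e : ∀ w v, NU.SPV w → NU.SPV v → A ε G R w v = WP.KQ (WT.aT P) w v := fun w v hw hv => A_eq h hG hw hv
  have hB : WP.Bil (WP.KQ (WT.aT P)) := WQ.TW_bil h.wh.wd _
  refine ⟨?_, ?_, ?_, ?_, ?_, ?_, ?_, ?_, ?_, ?_⟩
  · intro w v hw hv
    rw [e w v hw hv]
    exact hB.spv w v hw hv
  · intro w v hw hv x
    rw [e w v hw hv]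
    exact WP.dv_KQ _ h.wh.wd hw hv x
  · intro w v hw hv i
    rw [e w v hw hv]
    exact WT.mean_zero P hw hv i
  · intro w w' v hw hw' hv
    rw [e w v hw hv, e w' v hw' hv, e (w + w') v (NU.SPV.add hw hw') hv]
    exact hB.add_left w w' v hw hw' hv
  · intro r w v hw hv
    rw [e w v hw hv, e (r • w) v (NU.SPV.smul r hw) hv]
    exact hB.smul_left r w v hw hv
  · intro w v hw hv
    funext x
    rw [Pi.neg_apply]
    unfold A
    rw [← tsum_neg]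
    refine tsum_congr fun n => ?_
    unfold wdg
    module
  · intro w v z hw hv hz
    rw [e w v hw hv, e w z hw hz]
    exact WQ.TW_skew h.wh.wd _ hw hv hz
  · intro j w v hw hv hj
    rw [e w v hw hv]
    exact WT.flat P hw hv hj
  · obtain ⟨D, hD0, hD⟩ := WT.lp_boundA h hG (WT.PkF_of h)
    refine ⟨D, fun p1 p2 p3 h1 h2 h3 hp M hM w v z hw hv hz hb => ?_⟩
    rw [e w v hw hv]
    have h4 := hD p1 p2 p3 h1 h2 h3 hp M hM w v z hw hv hz hb
    have e5 : 2 + ε / 4 - 2 + 3 * ε / 4 = ε := by ring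
    rw [e5] at h4
    exact h4
  · obtain ⟨D, hD0, hD⟩ := WP.KQ_bound (WT.aT P) h.wh.wd hG.le (WT.aκ h hG (WT.PkF_of h))
    refine ⟨D, fun s1 s2 s3 h1 h2 h3 hs w v z hw hv hz => ?_⟩
    rw [e w v hw hv]
    exact hD s1 s2 s3 h1 h2 h3 (by linarith) w v z hw hv hz

theorem ip_smul' (r : ℝ) (u w : V → V) : ip (r • u) w = r * ip u w := WP.ip_smul r u w

theorem alt_smul {F F' : (V → V) → (V → V) → V → V} {s : ℝ} (hs : |s| = 1) (h : Alt ε F)
    (he : ∀ w v, F' w v = s • F w v) : Alt ε F' := by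
  obtain ⟨a1, a2, a3, a4, a5, a6, a7, a10, a8, a9⟩ := h
  have ab : ∀ w v z, |ip (F' w v) z| = |ip (F w v) z| := by
    intro w v z
    rw [he, ip_smul', abs_mul, hs, one_mul]
  refine ⟨?_, ?_, ?_, ?_, ?_, ?_, ?_, ?_, ?_, ?_⟩
  · intro w v hw hv
    rw [he]
    have h1 : NU.SPV (F w v) := a1 w v hw hv
    exact h1.smul s
  · intro w v hw hv x
    rw [he]
    have h1 : NU.SPV (F w v) := a1 w v hw hv
    have h2 : NU.dv (s • F w v) x = s * NU.dv (F w v) x := WP.dv_smul h1 s x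
    have h3 : NU.dv (F w v) x = 0 := a2 w v hw hv x
    show NU.dv (s • F w v) x = 0
    rw [h2, h3, mul_zero]
  · intro w v hw hv i
    rw [he]
    have h1 : ∫ x in cube, (s • F w v) x i = s * ∫ x in cube, F w v x i := by
      rw [← integral_const_mul]
      rfl
    rw [h1, a3 w v hw hv i, mul_zero]
  · intro w w' v hw hw' hv
    rw [he, he, he, a4 w w' v hw hw' hv, smul_add]
  · intro r w v hw hv
    rw [he, he, a5 r w v hw hv, smul_comm]
  · intro w v hw hv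
    rw [he, he, a6 w v hw hv, smul_neg]
  · intro w v z hw hv hz
    have e2 : ip v (s • F w z) = s * ip v (F w z) := by
      have h1 : ip v (s • F w z) = ip (s • F w z) v := NU.ip_comm v (s • F w z)
      have h2 : ip v (F w z) = ip (F w z) v := NU.ip_comm v (F w z)
      rw [h1, h2, ip_smul']
    rw [he, he, ip_smul', e2, a7 w v z hw hv hz]
    ring
  · intro j w v hw hv hj
    rw [he, a10 j w v hw hv hj, smul_zero]
  · obtain ⟨C, hC⟩ := a8
    refine ⟨C, fun p₁ p₂ p₃ h1 h2 h3 hp M hM w v z hw hv hz hb => ?_⟩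
    rw [ab]; exact hC p₁ p₂ p₃ h1 h2 h3 hp M hM w v z hw hv hz hb
  · obtain ⟨C, hC⟩ := a9
    refine ⟨C, fun s₁ s₂ s₃ h1 h2 h3 hs w v z hw hv hz => ?_⟩
    rw [ab]; exact hC s₁ s₂ s₃ h1 h2 h3 hs w v z hw hv hz

/-- The solutions for an operator that agrees with `A(curl u, u)`. -/
theorem Sol.to {K' : (V → V) → (V → V) → V → V} (hc : ∀ v, NU.SPV v → A ε G R (NU.curl v) v = K' v v)
    (h : Sol ν (A ε G R) T u p) : WP.Sol ν K' T u p := by
  have h0 : WP.Sol ν (fun u v => A ε G R (NU.curl u) v) T u p :=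
    ⟨h.smooth_u, h.smooth_p, h.per_u, h.per_p, h.divfree, fun t ht x i => h.momentum t ht x i⟩
  exact h0.congr fun v hv => hc v hv

theorem Sol.from {K' : (V → V) → (V → V) → V → V} (hc : ∀ v, NU.SPV v → A ε G R (NU.curl v) v = K' v v)
    (h : WP.Sol ν K' T u p) : Sol ν (A ε G R) T u p := by
  have h0 : WP.Sol ν (fun u v => A ε G R (NU.curl u) v) T u p := h.congr fun v hv => (hc v hv).symm
  exact ⟨h0.smooth_u, h0.smooth_p, h0.per_u, h0.per_p, h0.divfree, fun t ht x i => h0.momentum t ht x i⟩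

theorem PD_of (hε : 0 < ε) (hε1 : ε ≤ 4 / 5) (hR : 10 ^ 16 ≤ (R : ℝ) ^ ε) : WQ.PD R (2 + ε / 4) (3 * ε / 4) := by
  have hRn : (0 : ℝ) ≤ R := Nat.cast_nonneg R
  have hR0 : (0 : ℝ) < R := by
    rcases hRn.lt_or_eq with h | h
    · exact h
    · rw [← h, Real.zero_rpow hε.ne'] at hR
      norm_num at hR
  have hR1 : 1 ≤ R := by exact_mod_cast hR0
  have hR1' : (1 : ℝ) ≤ R := by exact_mod_cast hR1
  have e1 : 10 ^ 4 ≤ (R : ℝ) ^ (ε / 4) := by
    have h1 : (R : ℝ) ^ (ε / 4) = ((R : ℝ) ^ ε) ^ (1 / 4 : ℝ) := by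
      rw [← Real.rpow_mul hRn]; congr 1; ring
    have h2 : ((10 : ℝ) ^ 16) ^ (1 / 4 : ℝ) = 10 ^ 4 := by
      rw [← Real.rpow_natCast 10 16, ← Real.rpow_mul (by norm_num), ← Real.rpow_natCast 10 4]
      congr 1; push_cast; norm_num
    rw [h1, ← h2]
    exact Real.rpow_le_rpow (by positivity) hR (by norm_num)
  have e2 : (R : ℝ) ^ (ε / 4) * (R : ℝ) ^ (ε / 4) = (R : ℝ) ^ (ε / 2) := by
    rw [← Real.rpow_add hR0]; congr 1; ring
  have e3 : 10 ^ 5 ≤ (R : ℝ) ^ (ε / 2) := by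
    rw [← e2]
    calc (10 : ℝ) ^ 5 ≤ 10 ^ 4 * 10 ^ 4 := by norm_num
      _ ≤ _ := by gcongr
  have e4 : (R : ℝ) ^ (ε / 2) ≤ (R : ℝ) ^ (3 * ε / 4) :=
    Real.rpow_le_rpow_of_exponent_le hR1' (by linarith)
  have e5 : (R : ℝ) ^ (3 * ε / 4) ≤ (R : ℝ) ^ (1 : ℝ) :=
    Real.rpow_le_rpow_of_exponent_le hR1' (by linarith)
  rw [Real.rpow_one] at e5
  have e6 : (R : ℝ) ^ (2 + ε / 4) = (R : ℝ) ^ 2 * (R : ℝ) ^ (ε / 4) := by
    rw [Real.rpow_add hR0, ← Real.rpow_natCast _ 2]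
    push_cast
    rfl
  refine ⟨⟨by linarith, by linarith, by linarith, by linarith, ?_, ?_, by linarith⟩, by linarith, ?_⟩
  · have : (4 : ℝ) ≤ R := by
      have : (10 : ℝ) ^ 5 ≤ R := by linarith
      linarith [show (4 : ℝ) ≤ 10 ^ 5 by norm_num]
    exact_mod_cast this
  · rw [e6, mul_comm]
    gcongr
  · have : 2 - (2 + ε / 4) + 3 * ε / 4 = ε / 2 := by ring
    rw [this]
    exact e3

/-- The theorem. -/
theorem main {ε : ℝ} (hε : 0 < ε) (hε1 : ε ≤ 4 / 5) {R : ℕ} (hR : 10 ^ 16 ≤ (R : ℝ) ^ ε) {G : ℝ} (hG : G ≠ 0) :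
    Alt ε (A ε G R) ∧ ∀ ν : ℝ, 0 < ν →
      (∀ v : V → V, SPV v → (∀ x, dv v x = 0) →
        ∃ T > 0, ∃ (u : ℝ → V → V) (p : ℝ → V → ℝ), u 0 = v ∧ Sol ν (A ε G R) T u p) ∧
      (∃ δ > 0, ∀ v : V → V, SPV v → (∀ x, dv v x = 0) → wn v ≤ δ →
        ∀ T > 0, ∃ (u : ℝ → V → V) (p : ℝ → V → ℝ), u 0 = v ∧ Sol ν (A ε G R) T u p) ∧
      (∀ (T : ℝ) (u : ℝ → V → V) (p : ℝ → V → ℝ), Sol ν (A ε G R) T u p →
        (∀ t ∈ Ico 0 T, energy (u t) + 2 * ν * ∫ s in (0 : ℝ)..t, dissip (u s) = energy (u 0)) ∧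
        (∀ t ∈ Ico 0 T, ip (u t) (curl (u t)) + 2 * ν * ∫ s in (0 : ℝ)..t, ip (curl (u s)) (curl (curl (u s)))
          = ip (u 0) (curl (u 0))) ∧
        ∀ (u' : ℝ → V → V) (p' : ℝ → V → ℝ), Sol ν (A ε G R) T u' p' → u 0 = u' 0 → ∀ t ∈ Ico 0 T, u t = u' t) ∧
      ∀ v : V → V, SPV v → (∀ x, dv v x = 0) → ∀ η > 0,
        ∃ w : V → V, SPV w ∧ (∀ x, dv w x = 0) ∧ energy (w - v) ≤ η ^ 2 ∧ ∃ r > 0,
          ∀ w' : V → V, SPV w' → (∀ x i, |w' x i - w x i| ≤ r) →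
            ∀ (u : ℝ → V → V) (p : ℝ → V → ℝ), u 0 = w' → ¬Sol ν (A ε G R) η u p := by
  have h := PD_of hε hε1 hR
  obtain ⟨G0, hG0, hGe⟩ : ∃ G0 : ℝ, G0 ≠ 0 ∧ G = G0 := ⟨G, hG, rfl⟩
  subst hGe
  -- the sign
  set s : ℝ := G / |G| with hs
  set G1 : ℝ := |G| with hGd
  have hG1 : 0 < G1 := abs_pos.2 hG
  have hs1 : |s| = 1 := by
    rw [hs, abs_div, abs_abs, div_self hG1.ne']
  have hGs : G = s * G1 := by
    rw [hs, div_mul_cancel₀ _ hG1.ne']
  have hX := WT.PkF_of h.pc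
  set P := WT.qm h.pc hG1 hX with hP
  set Tt : Fin 2 × Fin 6 → WP.Tr P.R (WP.wd P.L) := WQ.TW fun i =>
    ((![WT.kD1 P, WT.kD2 P] : Fin 2 → WQ.W3 P.R (WP.wd P.L)) i).sc s hs1 with hTt
  set Ks : (V → V) → (V → V) → V → V := WP.KQ Tt with hKs
  have hB : WP.Bil Ks := WQ.TW_bil P.wh.wd _
  have hK : ∀ v, NU.SPV v → Ks v v = s • WP.KQ (WT.kT P) v v := fun v hv =>
    WQ.TW_sc P.wh.wd _ hs1 hv hv
  have hc : ∀ v, NU.SPV v → A ε G R (NU.curl v) v = Ks v v := by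
    intro v hv
    rw [hK v hv, ← WT.kT_eq P hv hv, ← A_eq h.pc hG1 hv.curl hv, hGs]
    exact A_smul s G1 (NU.curl v) v
  have halt0 : Alt ε (A ε G1 R) := alt_pos h.pc hG1
  have halt : Alt ε (A ε G R) := alt_smul hs1 halt0 fun w v => by
    rw [hGs]
    exact A_smul s G1 w v
  refine ⟨halt, fun ν hν => ⟨?_, ?_, ?_, ?_⟩⟩
  · intro v hv hdv
    obtain ⟨T, hT, u, p, h0, hs⟩ := WP.local_existence Tt P.wh.wd hν hv hdv
    exact ⟨T, hT, u, p, h0, Sol.from hc hs⟩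
  · set g : ℝ := WQ.gu Tt (4 * Real.pi ^ 2 * ν) with hg
    have hg0 : 0 ≤ g := WQ.gu_nonneg Tt P.wh.wd (by positivity)
    refine ⟨1 / (8 * (g + 1)), by positivity, fun v hv hdv hsm T hT => ?_⟩
    have h1 : 8 * g * (CB.Sm 3 fun k => ‖NU.fco v k‖) ≤ 1 := by
      have h2 : (CB.Sm 3 fun k => ‖NU.fco v k‖) ≤ 1 / (8 * (g + 1)) := hsm
      calc 8 * g * (CB.Sm 3 fun k => ‖NU.fco v k‖) ≤ 8 * g * (1 / (8 * (g + 1))) := by gcongr
        _ = g / (g + 1) := by field_simp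
        _ ≤ 1 := by rw [div_le_one (by positivity)]; linarith
    obtain ⟨u, p, h0, hs⟩ := WQ.small_existence Tt P.wh.wd hν hv hdv h1 hT
    exact ⟨u, p, h0, Sol.from hc hs⟩
  · intro T u p hs
    have hs1 : WP.Sol ν Ks T u p := Sol.to hc hs
    refine ⟨fun t ht => hs1.energy_eq hB.opr hν ht, fun t ht => ?_, fun u' p' hs' h0 => ?_⟩
    · refine WQ.hel_eq hs1 hB.opr (fun v hv => ?_) ht
      rw [← hc v hv]
      have e1 := halt.anti (curl v) v hv.curl hv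
      have e2 := halt.skew v (curl v) (curl v) hv hv.curl hv.curl
      have e3 : ip (-A ε G R v (curl v)) (curl v) = -ip (A ε G R v (curl v)) (curl v) := by
        have := ip_smul' (-1) (A ε G R v (curl v)) (curl v)
        rw [neg_one_smul] at this
        rw [this]; ring
      have e4 : ip (curl v) (A ε G R v (curl v)) = ip (A ε G R v (curl v)) (curl v) := NU.ip_comm _ _
      show ip (A ε G R (curl v) v) (curl v) = 0
      rw [e1, e3]
      rw [e4] at e2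
      linarith
    · exact WP.uniqueness hB hν hs1 (Sol.to hc hs') (hs1.KQ_wb _ P.wh.wd) h0
  · intro v hv hdv η hη
    obtain ⟨w, h1, h2, h3, r, hr, h4⟩ := WT.dense_blowupS h (by linarith) hG1 hX hs1 hB.opr hK hν hv hdv hη
    exact ⟨w, h1, h2, h3, r, hr, fun w' hw' hcl u p h0 hs => h4 w' hw' hcl u p h0 (Sol.to hc hs)⟩

end Pool.Agent.N980.WU
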